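import Pool.Agent.Y382.DN.Stm2

/-!
# DN-BESD: sparse configurations from products of stars (helper259, for project DN of helper382;
adaptation of `TH454.BW.bes_of_width`)
-/

set_option autoImplicit false

namespace Pool.Agent.Y259.DN

open Finset Pool.Agent.Y622.NG Pool.Agent.H607R2.BW Pool.Agent.TH454.BW Pool.Agent.Y382.DN

/-- the type of a coordinate -/
def tau (r m : ℕ) (k : Fin (r * m)) : Fin r := (finProdFinEquiv.symm k).1

/-- the strings of an input -/
def strg {r m : ℕ} (y : Fin (r * m) → Bool) : Fin r → Str m := fun i t => y (finProdFinEquiv (i, t))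

theorem strg_word {r m : ℕ} (y : Fin (r * m) → Bool) :
    (fun k => strg y (finProdFinEquiv.symm k).1 (finProdFinEquiv.symm k).2) = y := by
  funext k
  unfold strg
  rw [Prod.mk.eta, Equiv.apply_symm_apply]

theorem word_strg {r m : ℕ} (x : Fin r → Str m) :
    strg (fun k : Fin (r * m) => x (finProdFinEquiv.symm k).1 (finProdFinEquiv.symm k).2) = x := by
  funext i t
  unfold strg
  dsimp only
  rw [Equiv.symm_apply_apply]

theorem strg_inj {r m : ℕ} {y y' : Fin (r * m) → Bool} (h : strg y = strg y') : y = y' := by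
  rw [← strg_word y, ← strg_word y', h]

theorem nty_tau (r m : ℕ) (j : Fin r) : nty (tau r m) j univ = m := by
  unfold nty
  have h1 : (univ.filter fun k => tau r m k = j) =
      univ.image (fun t : Fin m => finProdFinEquiv (j, t)) := by
    ext k
    simp only [mem_filter, mem_univ, true_and, mem_image]
    constructor
    · intro h
      refine ⟨(finProdFinEquiv.symm k).2, ?_⟩
      rw [← h]
      unfold tau
      rw [Prod.mk.eta, Equiv.apply_symm_apply]
    · rintro ⟨t, rfl⟩
      unfold tau
      rw [Equiv.symm_apply_apply]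
  rw [h1, card_image_of_injective, card_univ, Fintype.card_fin]
  intro t t' h
  have := finProdFinEquiv.injective h
  simpa using this

theorem res_univ {n : ℕ} (x : Fin n → Bool) : res univ x = x := by
  funext k
  unfold res
  exact mxs_mem (mem_univ k)

/-- the number of accepted inputs -/
theorem card_acc {m r s w : ℕ} (E : Finset (Finset (Str m))) (hE : ∀ e ∈ E, e.card = r)
    (C : Dnnf (r * m) s w) (out : Fin s)
    (hC : open Classical in ∀ x : Fin r → Str m,
      C.val out (fun k => x (finProdFinEquiv.symm k).1 (finProdFinEquiv.symm k).2) = true ↔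
        Function.Injective x ∧ univ.image x ∈ E) :
    (acc C out).card = r.factorial * E.card := by
  classical
  have h1 := t_ORD m r E hE
  rw [← h1, ← Fintype.card_coe, ← Nat.card_eq_fintype_card]
  refine Nat.card_congr ⟨fun y => ⟨strg y.1, ?_⟩, fun x => ⟨fun k =>
    x.1 (finProdFinEquiv.symm k).1 (finProdFinEquiv.symm k).2, ?_⟩, ?_, ?_⟩
  · have h2 := mem_acc.1 y.2
    rw [← strg_word y.1] at h2
    have h3 := (hC (strg y.1)).1 h2
    convert h3
  · rw [mem_acc]
    refine (hC x.1).2 ?_
    convert x.2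
  · intro y
    exact Subtype.ext (strg_word y.1)
  · intro x
    exact Subtype.ext (word_strg x.1)

section grid

variable {r m p : ℕ}

/-- the inputs of the grid -/
def yy (T : Fin r → Finset (Fin (r * m))) (f : Fin r → Fin p → Fin (r * m) → Bool)
    (z : Fin (r * m) → Bool) (j1 j2 j3 : Fin r) (a : Fin p × Fin p × Fin p) : Fin (r * m) → Bool :=
  fun k => if k ∈ T j1 then f j1 a.1 k else if k ∈ T j2 then f j2 a.2.1 k else
    if k ∈ T j3 then f j3 a.2.2 k else z k

/-- many edges on few vertices -/
theorem grid (E : Finset (Finset (Str m))) (hr : 3 ≤ r) (hE : ∀ e ∈ E, e.card = r) (k : ℕ)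
    (hk : r.factorial * k ≤ p ^ 3) (hp : 2 ≤ p) (j1 j2 j3 : Fin r) (h12 : j2 ≠ j1) (h13 : j3 ≠ j1)
    (h23 : j3 ≠ j2) (T : Fin r → Finset (Fin (r * m))) (f : Fin r → Fin p → Fin (r * m) → Bool)
    (z : Fin (r * m) → Bool) (d12 : Disjoint (T j1) (T j2)) (d13 : Disjoint (T j1) (T j3))
    (d23 : Disjoint (T j2) (T j3))
    (hag : ∀ e, (e = j1 ∨ e = j2 ∨ e = j3) → ∀ i i', ∀ k ∈ T e, tau r m k = e → f e i k = f e i' k)
    (hdi : ∀ e, (e = j1 ∨ e = j2 ∨ e = j3) → ∀ i i', i ≠ i' → ∃ k ∈ T e, f e i k ≠ f e i' k)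
    (hacc : open Classical in ∀ a, Function.Injective (strg (yy T f z j1 j2 j3 a)) ∧
      univ.image (strg (yy T f z j1 j2 j3 a)) ∈ E) :
    open Classical in
    ∃ T ⊆ E, T.card = k ∧ (T.biUnion id).card ≤ (r - 3) * k + 3 * p ^ 2 := by
  classical
  obtain ⟨W, hW⟩ : ∃ W : Fin p × Fin p × Fin p → Fin r → Str m,
    W = fun a => strg (yy T f z j1 j2 j3 a) := ⟨_, rfl⟩
  have hacc' : ∀ a, Function.Injective (W a) ∧ univ.image (W a) ∈ E := by
    intro a
    have h := hacc a
    rw [hW]
    convert h
  have hyinj : Function.Injective (yy T f z j1 j2 j3) := by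
    intro a a' h
    have e1 : a.1 = a'.1 := by
      by_contra hne
      obtain ⟨k, hk, hkne⟩ := hdi j1 (Or.inl rfl) _ _ hne
      apply hkne
      have := congrFun h k
      unfold yy at this
      rwa [if_pos hk, if_pos hk] at this
    have e2 : a.2.1 = a'.2.1 := by
      by_contra hne
      obtain ⟨k, hk, hkne⟩ := hdi j2 (Or.inr (Or.inl rfl)) _ _ hne
      apply hkne
      have := congrFun h k
      unfold yy at this
      have hk1 : k ∉ T j1 := fun h' => (Finset.disjoint_left.1 d12 h') hk
      rwa [if_neg hk1, if_neg hk1, if_pos hk, if_pos hk] at this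
    have e3 : a.2.2 = a'.2.2 := by
      by_contra hne
      obtain ⟨k, hk, hkne⟩ := hdi j3 (Or.inr (Or.inr rfl)) _ _ hne
      apply hkne
      have := congrFun h k
      unfold yy at this
      have hk1 : k ∉ T j1 := fun h' => (Finset.disjoint_left.1 d13 h') hk
      have hk2 : k ∉ T j2 := fun h' => (Finset.disjoint_left.1 d23 h') hk
      rwa [if_neg hk1, if_neg hk1, if_neg hk2, if_neg hk2, if_pos hk, if_pos hk] at this
    exact Prod.ext e1 (Prod.ext e2 e3)
  have hWinj : Function.Injective W := by
    intro a a' h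
    rw [hW] at h
    exact hyinj (strg_inj h)
  -- the edges
  let ed : Fin p × Fin p × Fin p → Finset (Str m) := fun a => univ.image (W a)
  obtain ⟨E', hE'⟩ : ∃ E' : Finset (Finset (Str m)), E' = univ.image ed := ⟨_, rfl⟩
  have hE'E : E' ⊆ E := by
    intro s hs
    rw [hE'] at hs
    obtain ⟨a, _, rfl⟩ := mem_image.1 hs
    exact (hacc' a).2
  have hE'card : k ≤ E'.card := by
    have h1 := t_ORD m r E' (fun s hs => hE s (hE'E hs))
    have hinj : Function.Injective (fun a : Fin p × Fin p × Fin p =>
        (⟨W a, (hacc' a).1, by rw [hE']; exact mem_image.2 ⟨a, mem_univ _, rfl⟩⟩ :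
          {x : Fin r → Str m // Function.Injective x ∧ univ.image x ∈ E'})) := by
      intro a a' h
      exact hWinj (congrArg Subtype.val h)
    have h2 := Nat.card_le_card_of_injective _ hinj
    have h3 : Nat.card (Fin p × Fin p × Fin p) = p ^ 3 := by
      rw [Nat.card_eq_fintype_card]
      simp only [Fintype.card_prod, Fintype.card_fin]
      ring
    have h4 : Nat.card {x : Fin r → Str m // Function.Injective x ∧ univ.image x ∈ E'} =
        r.factorial * E'.card := by
      convert h1
    rw [h3, h4] at h2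
    exact Nat.le_of_mul_le_mul_left (hk.trans h2) (Nat.factorial_pos r)
  obtain ⟨S, hSE', hSk⟩ := exists_subset_card_eq hE'card
  refine ⟨S, hSE'.trans hE'E, hSk, ?_⟩
  -- representatives
  have hrep : ∀ e : Finset (Str m), ∃ a : Fin p × Fin p × Fin p, e ∈ S → ed a = e := by
    intro e
    by_cases he : e ∈ S
    · have h1 := hSE' he
      rw [hE'] at h1
      obtain ⟨a, _, ha⟩ := mem_image.1 h1
      exact ⟨a, fun _ => ha⟩
    · exact ⟨(⟨0, by omega⟩, ⟨0, by omega⟩, ⟨0, by omega⟩), fun h => absurd h he⟩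
  choose rep hrep using hrep
  let zero : Fin p := ⟨0, by omega⟩
  let V1 : Finset (Str m) := univ.image (fun a : Fin p × Fin p => W (zero, a.1, a.2) j1)
  let V2 : Finset (Str m) := univ.image (fun a : Fin p × Fin p => W (a.1, zero, a.2) j2)
  let V3 : Finset (Str m) := univ.image (fun a : Fin p × Fin p => W (a.1, a.2, zero) j3)
  let J : Finset (Fin r) := ((univ.erase j1).erase j2).erase j3
  have hJ : J.card = r - 3 := by
    simp only [J]
    rw [card_erase_of_mem, card_erase_of_mem, card_erase_of_mem, card_univ, Fintype.card_fin]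
    · omega
    · exact mem_univ _
    · exact mem_erase.2 ⟨h12, mem_univ _⟩
    · exact mem_erase.2 ⟨h23, mem_erase.2 ⟨h13, mem_univ _⟩⟩
  have hV : ∀ V : Fin p × Fin p → Str m, (univ.image V).card ≤ p ^ 2 := by
    intro V
    refine le_trans card_image_le ?_
    rw [card_univ, Fintype.card_prod, Fintype.card_fin]
    exact le_of_eq (by ring)
  have ht : ∀ (i : Fin r) (t : Fin m), tau r m (finProdFinEquiv (i, t)) = i := by
    intro i t
    unfold tau
    rw [Equiv.symm_apply_apply]
  have hc1 : ∀ a : Fin p × Fin p × Fin p, W (zero, a.2.1, a.2.2) j1 = W a j1 := by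
    intro a
    rw [hW]
    funext t
    dsimp only
    unfold strg yy
    by_cases h1 : (finProdFinEquiv (j1, t) : Fin (r * m)) ∈ T j1
    · rw [if_pos h1, if_pos h1]
      exact hag j1 (Or.inl rfl) _ _ _ h1 (ht j1 t)
    · rw [if_neg h1, if_neg h1]
  have hc2 : ∀ a : Fin p × Fin p × Fin p, W (a.1, zero, a.2.2) j2 = W a j2 := by
    intro a
    rw [hW]
    funext t
    dsimp only
    unfold strg yy
    by_cases h1 : (finProdFinEquiv (j2, t) : Fin (r * m)) ∈ T j2
    · have h2 : (finProdFinEquiv (j2, t) : Fin (r * m)) ∉ T j1 := fun h' =>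
        (Finset.disjoint_left.1 d12 h') h1
      rw [if_neg h2, if_neg h2, if_pos h1, if_pos h1]
      exact hag j2 (Or.inr (Or.inl rfl)) _ _ _ h1 (ht j2 t)
    · rw [if_neg h1, if_neg h1]
  have hc3 : ∀ a : Fin p × Fin p × Fin p, W (a.1, a.2.1, zero) j3 = W a j3 := by
    intro a
    rw [hW]
    funext t
    dsimp only
    unfold strg yy
    by_cases h1 : (finProdFinEquiv (j3, t) : Fin (r * m)) ∈ T j3
    · have h2 : (finProdFinEquiv (j3, t) : Fin (r * m)) ∉ T j1 := fun h' =>
        (Finset.disjoint_left.1 d13 h') h1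
      have h3 : (finProdFinEquiv (j3, t) : Fin (r * m)) ∉ T j2 := fun h' =>
        (Finset.disjoint_left.1 d23 h') h1
      rw [if_neg h2, if_neg h2, if_neg h3, if_neg h3, if_pos h1, if_pos h1]
      exact hag j3 (Or.inr (Or.inr rfl)) _ _ _ h1 (ht j3 t)
    · rw [if_neg h1, if_neg h1]
  have hsub : S.biUnion id ⊆ (V1 ∪ (V2 ∪ V3)) ∪
      S.biUnion (fun e => J.image (W (rep e))) := by
    intro x hx
    obtain ⟨e, he, hxe⟩ := mem_biUnion.1 hx
    have hxe' : x ∈ e := hxe
    rw [← hrep e he] at hxe'
    obtain ⟨i, _, hi⟩ := mem_image.1 hxe'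
    rw [mem_union]
    by_cases hi1 : i = j1
    · left
      rw [mem_union]
      left
      rw [mem_image]
      refine ⟨((rep e).2.1, (rep e).2.2), mem_univ _, ?_⟩
      rw [← hi, hi1]
      exact hc1 (rep e)
    · by_cases hi2 : i = j2
      · left
        rw [mem_union, mem_union]
        right; left
        rw [mem_image]
        refine ⟨((rep e).1, (rep e).2.2), mem_univ _, ?_⟩
        rw [← hi, hi2]
        exact hc2 (rep e)
      · by_cases hi3 : i = j3
        · left
          rw [mem_union, mem_union]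
          right; right
          rw [mem_image]
          refine ⟨((rep e).1, (rep e).2.1), mem_univ _, ?_⟩
          rw [← hi, hi3]
          exact hc3 (rep e)
        · right
          rw [mem_biUnion]
          refine ⟨e, he, mem_image.2 ⟨i, ?_, hi⟩⟩
          exact mem_erase.2 ⟨hi3, mem_erase.2 ⟨hi2, mem_erase.2 ⟨hi1, mem_univ _⟩⟩⟩
  refine le_trans (card_le_card hsub) ?_
  refine le_trans (card_union_le _ _) ?_
  have h1 := card_union_le V1 (V2 ∪ V3)
  have h2 := card_union_le V2 V3
  have h3 : (S.biUnion (fun e => J.image (W (rep e)))).card ≤ k * (r - 3) := by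
    refine le_trans card_biUnion_le ?_
    refine le_trans (sum_le_card_nsmul _ _ (r - 3) ?_) ?_
    · intro e _
      rw [← hJ]
      exact card_image_le
    · rw [hSk, smul_eq_mul]
  have h4 := hV (fun a => W (zero, a.1, a.2) j1)
  have h5 := hV (fun a => W (a.1, zero, a.2) j2)
  have h6 := hV (fun a => W (a.1, a.2, zero) j3)
  have h7 : k * (r - 3) = (r - 3) * k := mul_comm _ _
  have h4' : V1.card ≤ p ^ 2 := h4
  have h5' : V2.card ≤ p ^ 2 := h5
  have h6' : V3.card ≤ p ^ 2 := h6
  omega

end grid

theorem t_BESD : S_GRD → S_BESD := by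
  classical
  intro hG r k w hr hk
  obtain ⟨p, hp2, hp1, hp3, -⟩ := exists_side r k hk
  obtain ⟨K, hK⟩ := hG r p w 2 (by omega)
  refine ⟨K, fun m s E hE hW hfree => ?_⟩
  obtain ⟨C, out, hC⟩ := hW
  obtain ⟨j1, hj1⟩ : ∃ j : Fin r, j.1 = 0 := ⟨⟨0, by omega⟩, rfl⟩
  obtain ⟨j2, hj2⟩ : ∃ j : Fin r, j.1 = 1 := ⟨⟨1, by omega⟩, rfl⟩
  obtain ⟨j3, hj3⟩ : ∃ j : Fin r, j.1 = 2 := ⟨⟨2, by omega⟩, rfl⟩
  have h12 : j2 ≠ j1 := by
    intro h
    have := congrArg Fin.val h
    omega
  have h13 : j3 ≠ j1 := by
    intro h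
    have := congrArg Fin.val h
    omega
  have h23 : j3 ≠ j2 := by
    intro h
    have := congrArg Fin.val h
    omega
  have hJc : ({j1, j2, j3} : Finset (Fin r)).card = 2 + 1 := by
    rw [card_insert_of_notMem, card_insert_of_notMem, card_singleton]
    · rw [mem_singleton]
      exact h23.symm
    · rw [mem_insert, mem_singleton]
      push Not
      exact ⟨h12.symm, h13.symm⟩
  have hacard := card_acc E hE C out (by convert hC)
  by_cases hT : Tri (tau r m) {j1, j2, j3} p univ (fun x => C.val out x = true)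
  · exfalso
    obtain ⟨T, f, z, -, hdis, hag, hdi, hyy⟩ := hT
    have m1 : j1 ∈ ({j1, j2, j3} : Finset (Fin r)) := by simp
    have m2 : j2 ∈ ({j1, j2, j3} : Finset (Fin r)) := by simp
    have m3 : j3 ∈ ({j1, j2, j3} : Finset (Fin r)) := by simp
    have d12 : Disjoint (T j1) (T j2) := hdis j1 m1 j2 m2 h12.symm
    have d13 : Disjoint (T j1) (T j3) := hdis j1 m1 j3 m3 h13.symm
    have d23 : Disjoint (T j2) (T j3) := hdis j2 m2 j3 m3 h23.symm
    have hmem : ∀ e, (e = j1 ∨ e = j2 ∨ e = j3) → e ∈ ({j1, j2, j3} : Finset (Fin r)) := by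
      intro e he
      simpa using he
    have hval : ∀ a, C.val out (yy T f z j1 j2 j3 a) = true := by
      intro a
      apply hyy
      · intro k hk
        unfold yy
        rw [if_neg (hk j1 m1), if_neg (hk j2 m2), if_neg (hk j3 m3)]
      · intro e he
        have he' : e = j1 ∨ e = j2 ∨ e = j3 := by simpa using he
        rcases he' with rfl | rfl | rfl
        · refine ⟨a.1, fun k hk => ?_⟩
          unfold yy
          rw [if_pos hk]
        · refine ⟨a.2.1, fun k hk => ?_⟩
          have hk1 : k ∉ T j1 := fun h' => (Finset.disjoint_left.1 d12 h') hk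
          unfold yy
          rw [if_neg hk1, if_pos hk]
        · refine ⟨a.2.2, fun k hk => ?_⟩
          have hk1 : k ∉ T j1 := fun h' => (Finset.disjoint_left.1 d13 h') hk
          have hk2 : k ∉ T j2 := fun h' => (Finset.disjoint_left.1 d23 h') hk
          unfold yy
          rw [if_neg hk1, if_neg hk2, if_pos hk]
    obtain ⟨S, hSE, hSk, hSc⟩ := grid E hr hE k hp1 hp2 j1 j2 j3 h12 h13 h23 T f z d12 d13 d23
      (fun e he => hag e (hmem e he)) (fun e he => hdi e (hmem e he)) (by
        intro a
        have h1 := hval a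
        rw [← strg_word (yy T f z j1 j2 j3 a)] at h1
        have h2 := (hC (strg (yy T f z j1 j2 j3 a))).1 h1
        convert h2)
    have h1 := hfree S hSE hSk
    have h2 : (r - 2) * k = (r - 3) * k + k := by
      obtain ⟨r', rfl⟩ : ∃ r', r = r' + 3 := ⟨r - 3, by omega⟩
      have e1 : r' + 3 - 2 = r' + 1 := by omega
      have e2 : r' + 3 - 3 = r' := by omega
      rw [e1, e2]
      ring
    have h3 : (S.biUnion id).card ≤ (r - 3) * k + 3 * p ^ 2 := by
      convert hSc
    have h4 : (r - 2) * k + 3 < (S.biUnion id).card := by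
      convert h1
    omega
  · have h1 := hK (r * m) s m (tau r m) C out univ {j1, j2, j3} hJc (subset_univ _)
      (fun j _ => (nty_tau r m j).le) hT
    have h2 : (acc C out).image (res univ) = acc C out := by
      ext x
      rw [mem_image]
      constructor
      · rintro ⟨y, hy, rfl⟩
        rw [res_univ]
        exact hy
      · intro hx
        exact ⟨x, hx, res_univ x⟩
    have h3 : ((acc C out).image (res univ)).card = r.factorial * E.card := by
      rw [h2, hacard]
    have h4 : r.factorial * E.card ≤ K * s ^ 2 * 2 ^ m := by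
      rw [← h3]
      convert h1
    exact le_trans (Nat.le_mul_of_pos_left _ (Nat.factorial_pos r)) h4

end Pool.Agent.Y259.DN
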